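import Pool.Agent.T9h21.DP.Spec3

/-! PIECE (u2) of `T9h21/DP/Spec3.lean`: sums and minima of finite families of formulas. -/

set_option autoImplicit false

namespace Pool.Agent.T9h89.DP

open Finset
open scoped ENNReal
open Pool.Agent.T9h21.DP

theorem uFam : U_fam := by
  classical
  intro V ι s f
  constructor
  · induction s using Finset.induction_on with
    | empty =>
      exact ⟨Fm.const ⊤, by simp [Fm.adds], fun w => by simp [Fm.eval]⟩
    | insert a s ha ih =>
      obtain ⟨F, h1, h2⟩ := ih
      refine ⟨Fm.min (f a) F, ?_, fun w => ?_⟩
      · rw [sum_insert ha]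
        simp only [Fm.adds]
        omega
      · rw [inf_insert, ← h2 w]
        rfl
  · induction s using Finset.induction_on with
    | empty =>
      exact ⟨Fm.const 0, by simp [Fm.adds], fun w => by simp [Fm.eval]⟩
    | insert a s ha ih =>
      obtain ⟨F, h1, h2⟩ := ih
      refine ⟨Fm.add (f a) F, ?_, fun w => ?_⟩
      · rw [sum_insert ha, card_insert_of_notMem ha]
        simp only [Fm.adds]
        omega
      · rw [sum_insert ha, ← h2 w]
        rfl

end Pool.Agent.T9h89.DP
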