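import Pool.Agent.T9h89.DP.TourA
import Pool.Agent.T9h70.DP.TourTsp

/-! PIECE (u3) of `T9h21/DP/Spec3.lean`, assembled. -/

set_option autoImplicit false

namespace Pool.Agent.T9h89.DP

open Pool.Agent.T9h21.DP

theorem uTour : U_tour :=
  ⟨fun _ p A r u v hu hv h => tour_ins p A r u v hu hv h,
    fun _ p A B r hBA h => tour_del p A B r hBA h,
    Pool.Agent.T9h70.DP.tsp_tour, Pool.Agent.T9h70.DP.tour_tsp⟩

end Pool.Agent.T9h89.DP
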