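import Pool.Agent.T9h21.DP.Spec4
import Pool.Agent.T9h70.DP.Inst

/-!
# Piece `vInst` of the project DPA (after helper70, `T9h70/DP/Inst.lean`)
-/

open Finset
open scoped ENNReal

set_option autoImplicit false

namespace Pool.Agent.T9h89.DP

open Pool.Agent.T9h48.SC Pool.Agent.T9h48.TSP Pool.Agent.T9h21.DP Pool.Agent.T9h70.DP

variable {m : ℕ}

lemma one_le_P (X : Cfg m) (u v : Fin (m + 1)) (h : u ≠ v) : 1 ≤ eucl (Pool.Agent.T9h70.DP.P X u) (Pool.Agent.T9h70.DP.P X v) := by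
  refine le_eucl ?_
  rw [P_fst, P_snd]
  have h1 : ((u : ℕ) : ℤ) - ((v : ℕ) : ℤ) ≠ 0 := by
    intro h0
    apply h
    apply Fin.ext
    omega
  have h2 : (1 : ℤ) ≤ (((u : ℕ) : ℤ) - ((v : ℕ) : ℤ)) ^ 2 := by
    have := Int.one_le_abs h1
    rw [← sq_abs]
    nlinarith
  have h3 : (1 : ℝ) ≤ (((u : ℕ) : ℝ) - ((v : ℕ) : ℝ)) ^ 2 := by exact_mod_cast h2
  have h4 := sq_nonneg (((m : ℝ) + 1) * (((X u : ℕ) : ℝ) - ((X v : ℕ) : ℝ)))
  linarith

/-- a cheap monomial for every placement, with a bound for its weight -/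
theorem vInst (m : ℕ) : V_inst m := by
  intro C ρ N hρ hN hC X
  obtain ⟨val, hrun, _, hup⟩ := hC (Pool.Agent.T9h70.DP.P X) (P_inj X) (by
    intro v
    have h1 := v.2
    have h2 : ((X v : ℕ) : ℤ) ≤ m := by
      have := (X v).2
      omega
    have h3 : (0 : ℤ) ≤ ((X v : ℕ) : ℤ) := Int.natCast_nonneg _
    have h4 : (0 : ℤ) ≤ (m : ℤ) := Int.natCast_nonneg _
    have h6 : ((m : ℤ) + 1) ^ 2 ≤ N := by exact_mod_cast hN
    unfold Pool.Agent.T9h70.DP.P
    dsimp only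
    refine ⟨by positivity, by nlinarith, by positivity, ?_⟩
    have h5 : ((v : ℕ) : ℤ) ≤ m := by omega
    nlinarith)
  obtain ⟨M, c, hM, hM'⟩ := attainC hrun C.out
  have h1 : TropCircuit.nodeVal (dists (Pool.Agent.T9h70.DP.P X)) val C.out ≤
      ENNReal.ofReal (ρ * (3 * ((m : ℝ) + 1) ^ 2)) :=
    hup.trans (ENNReal.ofReal_le_ofReal
      (mul_le_mul_of_nonneg_left ((tsp_le _ _).trans (tour X)) hρ))
  have hc1 : c ≤ ENNReal.ofReal (ρ * (3 * ((m : ℝ) + 1) ^ 2)) :=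
    le_trans le_add_self (hM'.trans h1)
  refine ⟨M, c, hM, ne_top_of_le_ne_top ENNReal.ofReal_ne_top hc1, ?_, ?_⟩
  · have h2 := le_trans le_self_add (hM'.trans h1)
    rw [sum_dists, ENNReal.ofReal_le_ofReal_iff (by positivity)] at h2
    have h3 : ((m : ℝ) + 1) * (S M (gap X) : ℝ) ≤
        (M.map fun e => eucl (Pool.Agent.T9h70.DP.P X e.1) (Pool.Agent.T9h70.DP.P X e.2)).sum := by
      unfold S
      rw [Nat.cast_multiset_sum, Multiset.map_map, ← Multiset.sum_map_mul_left]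
      exact Multiset.sum_map_le_sum_map _ _ fun e _ => le_eucl_P X e
    have h4 : (0 : ℝ) < (m : ℝ) + 1 := by positivity
    have h5 : ((m : ℝ) + 1) * (S M (gap X) : ℝ) ≤ ((m : ℝ) + 1) * (3 * ρ * (m + 1)) := by
      refine (h3.trans h2).trans (le_of_eq ?_)
      ring
    exact le_of_mul_le_mul_left h5 h4
  · have h2 := le_trans le_self_add (hM'.trans h1)
    rw [sum_dists, ENNReal.ofReal_le_ofReal_iff (by positivity)] at h2
    have h3 : (S M nl : ℝ) ≤
        (M.map fun e => eucl (Pool.Agent.T9h70.DP.P X e.1) (Pool.Agent.T9h70.DP.P X e.2)).sum := by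
      unfold S
      rw [Nat.cast_multiset_sum, Multiset.map_map]
      refine Multiset.sum_map_le_sum_map _ _ fun e _ => ?_
      simp only [Function.comp_apply]
      unfold nl
      split_ifs with he
      · simpa using eucl_nonneg _ _
      · have := one_le_P X e.1 e.2 he
        simpa using this
    have h4 : c.toReal ≤ ρ * (3 * ((m : ℝ) + 1) ^ 2) :=
      ENNReal.toReal_le_of_le_ofReal (by positivity) hc1
    have h5 := h3.trans h2
    have h6 : (0 : ℝ) ≤ m := Nat.cast_nonneg _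
    have h7 : (S M nl : ℝ) * (m + 1) ≤ ρ * (3 * ((m : ℝ) + 1) ^ 2) * (m + 1) :=
      mul_le_mul_of_nonneg_right h5 (by positivity)
    unfold kap
    have h8 : ρ * (3 * ((m : ℝ) + 1) ^ 2) ≤ ρ * (3 * ((m : ℝ) + 1) ^ 2) * (m + 1) := by
      have h9 : 0 ≤ ρ * (3 * ((m : ℝ) + 1) ^ 2) := by positivity
      nlinarith
    have h10 : ρ * (3 * ((m : ℝ) + 1) ^ 2) * (m + 1) = 3 * ρ * (m + 1) ^ 3 := by ring
    rw [h10] at h7 h8
    linarith

end Pool.Agent.T9h89.DP
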