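import Pool.Agent.T9h21.DP.Spec3

/-! PIECE (u3a) of `T9h21/DP/Spec3.lean`: insertion and deletion of points in tours. -/

set_option autoImplicit false

namespace Pool.Agent.T9h89.DP

open Finset
open Pool.Agent.T9h21.DP
open Pool.Agent.T9h48.TSP

theorem eucl_eq_norm (a b : ℤ × ℤ) :
    eucl a b = ‖((⟨(a.1 : ℝ), (a.2 : ℝ)⟩ : ℂ) - (⟨(b.1 : ℝ), (b.2 : ℝ)⟩ : ℂ))‖ := by
  rw [Complex.norm_eq_sqrt_sq_add_sq]
  unfold eucl
  congr 1
  push_cast
  rfl

theorem eucl_comm (a b : ℤ × ℤ) : eucl a b = eucl b a := by
  rw [eucl_eq_norm, eucl_eq_norm, norm_sub_rev]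

theorem eucl_self (a : ℤ × ℤ) : eucl a a = 0 := by
  rw [eucl_eq_norm, sub_self, norm_zero]

theorem eucl_triangle (a b c : ℤ × ℤ) : eucl a c ≤ eucl a b + eucl b c := by
  rw [eucl_eq_norm, eucl_eq_norm, eucl_eq_norm]
  exact norm_sub_le_norm_sub_add_norm_sub _ _ _

/-- the length of the walk from `a` through `l` to `b` -/
noncomputable def pl {n : ℕ} (p : Fin n → ℤ × ℤ) : Fin n → List (Fin n) → Fin n → ℝ
  | a, [], b => eucl (p a) (p b)
  | a, c :: l, b => eucl (p a) (p c) + pl p c l b

variable {n : ℕ} (p : Fin n → ℤ × ℤ)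

theorem pl_nonneg (a : Fin n) (l : List (Fin n)) (b : Fin n) : 0 ≤ pl p a l b := by
  induction l generalizing a with
  | nil => exact eucl_nonneg _ _
  | cons c l ih =>
    have := ih c
    have := eucl_nonneg (p a) (p c)
    simp only [pl]
    linarith

theorem pl_append (a : Fin n) (l : List (Fin n)) (u : Fin n) (l' : List (Fin n)) (b : Fin n) :
    pl p a (l ++ u :: l') b = pl p a l u + pl p u l' b := by
  induction l generalizing a with
  | nil => rfl
  | cons c l ih =>
    simp only [List.cons_append, pl, ih c]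
    ring

theorem pl_triangle (a c : Fin n) (l : List (Fin n)) (b : Fin n) :
    pl p a l b ≤ eucl (p a) (p c) + pl p c l b := by
  cases l with
  | nil => exact eucl_triangle _ _ _
  | cons e l =>
    have := eucl_triangle (p a) (p c) (p e)
    simp only [pl]
    linarith

theorem pl_filter (q : Fin n → Bool) (a : Fin n) (l : List (Fin n)) (b : Fin n) :
    pl p a (l.filter q) b ≤ pl p a l b := by
  induction l generalizing a with
  | nil => exact le_rfl
  | cons c l ih =>
    by_cases h : q c = true
    · rw [List.filter_cons_of_pos h]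
      have := ih c
      simp only [pl]
      linarith
    · rw [List.filter_cons_of_neg h]
      have h1 := ih a
      have h2 := pl_triangle p a c l b
      simp only [pl]
      linarith

theorem clen_cons (a : Fin n) (l : List (Fin n)) : clen p (a :: l) = pl p a l a := by
  have key : ∀ (c : Fin n) (l : List (Fin n)) (b : Fin n),
      (List.zipWith (fun u v => eucl (p u) (p v)) (c :: l) (l ++ [b])).sum = pl p c l b := by
    intro c l b
    induction l generalizing c with
    | nil => simp [pl]
    | cons e l ih =>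
      rw [List.cons_append, List.zipWith_cons_cons, List.sum_cons, ih e]
      rfl
  unfold clen
  rw [List.rotate_cons_succ, List.rotate_zero]
  exact key a l a

theorem clen_nil : clen p ([] : List (Fin n)) = 0 := by simp [clen]

theorem clen_nonneg (l : List (Fin n)) : 0 ≤ clen p l := by
  cases l with
  | nil => rw [clen_nil]
  | cons a l => rw [clen_cons]; exact pl_nonneg p _ _ _

/-- a tour may begin with any of its points -/
theorem tour_rot {A : Finset (Fin n)} {r : ℝ} {u : Fin n} (hu : u ∈ A) (h : Tour p A r) :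
    ∃ l : List (Fin n), (u :: l).Nodup ∧ (u :: l).toFinset = A ∧ pl p u l u ≤ r := by
  obtain ⟨l, h1, h2, h3⟩ := h
  have hul : u ∈ l := by rw [← h2] at hu; exact List.mem_toFinset.1 hu
  obtain ⟨s, t, rfl⟩ := List.append_of_mem hul
  refine ⟨t ++ s, ?_, ?_, ?_⟩
  · have : (s ++ u :: t).Perm (u :: (t ++ s)) := by
      refine List.perm_append_comm.trans ?_
      exact List.Perm.refl _
    exact this.nodup_iff.1 h1
  · rw [← h2]
    ext x
    simp only [List.mem_toFinset, List.mem_cons, List.mem_append]
    tauto
  · cases s with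
    | nil =>
      rw [List.nil_append, clen_cons] at h3
      rw [List.append_nil]
      exact h3
    | cons a s =>
      rw [List.cons_append, clen_cons, pl_append] at h3
      rw [pl_append]
      linarith

theorem tour_ins (A : Finset (Fin n)) (r : ℝ) (u v : Fin n) (hu : u ∈ A) (hv : v ∉ A)
    (h : Tour p A r) : Tour p (insert v A) (r + 2 * eucl (p v) (p u)) := by
  obtain ⟨l, h1, h2, h3⟩ := tour_rot p hu h
  have hvl : v ∉ u :: l := fun hm => hv (by rw [← h2]; exact List.mem_toFinset.2 hm)
  refine ⟨v :: u :: l, List.nodup_cons.2 ⟨hvl, h1⟩, ?_, ?_⟩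
  · rw [List.toFinset_cons, h2]
  · rw [clen_cons]
    simp only [pl]
    have h4 : pl p u l v ≤ pl p u l u + eucl (p u) (p v) := by
      have key : ∀ (c : Fin n) (l : List (Fin n)), pl p c l v ≤ pl p c l u + eucl (p u) (p v) := by
        intro c l
        induction l generalizing c with
        | nil => exact eucl_triangle _ _ _
        | cons e l ih =>
          have := ih e
          simp only [pl]
          linarith
      exact key u l
    rw [eucl_comm (p u) (p v)] at h4
    linarith

theorem tour_del (A B : Finset (Fin n)) (r : ℝ) (hBA : B ⊆ A) (h : Tour p A r) : Tour p B r := by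
  classical
  rcases B.eq_empty_or_nonempty with rfl | ⟨u, hu⟩
  · obtain ⟨l, _, _, h3⟩ := h
    refine ⟨[], List.nodup_nil, rfl, ?_⟩
    rw [clen_nil]
    exact (clen_nonneg p l).trans h3
  · obtain ⟨l, h1, h2, h3⟩ := tour_rot p (hBA hu) h
    have h4 : (u :: l).filter (fun x => decide (x ∈ B)) =
        u :: l.filter (fun x => decide (x ∈ B)) := List.filter_cons_of_pos (by simpa using hu)
    refine ⟨u :: l.filter (fun x => decide (x ∈ B)), ?_, ?_, ?_⟩
    · rw [← h4]; exact h1.filter _
    · rw [← h4]
      ext x
      rw [List.mem_toFinset, List.mem_filter, ← List.mem_toFinset, h2, decide_eq_true_iff]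
      exact ⟨fun hx => hx.2, fun hx => ⟨hBA hx, hx⟩⟩
    · rw [clen_cons]
      exact (pl_filter p _ u l u).trans h3

end Pool.Agent.T9h89.DP
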